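import Mathlib
import Pool.Agent.Y260.NatBdC

set_option autoImplicit false

open Metric Set

namespace Pool.Agent.Results.MP_ca9574_an.NaturalBoundary

/-- The class `A^∞(B)` of the unit ball of `ℂⁿ`: holomorphic functions all of whose derivatives
extend continuously to the closed ball. -/
def InAInf {n : ℕ} (f : EuclideanSpace ℂ (Fin n) → ℂ) : Prop :=
  DifferentiableOn ℂ f (ball 0 1) ∧
    ∀ m : ℕ, ∃ g : EuclideanSpace ℂ (Fin n) → EuclideanSpace ℂ (Fin n) [×m]→L[ℂ] ℂ,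
      ContinuousOn g (closedBall 0 1) ∧
        ∀ z ∈ ball (0 : EuclideanSpace ℂ (Fin n)) 1, iteratedFDeriv ℂ m f z = g z

/-- The unit circle is a natural boundary for the function `g` on the unit disc. -/
def HasNaturalBoundary (g : ℂ → ℂ) : Prop :=
  ∀ τ : ℂ, ‖τ‖ = 1 → ¬ ∃ (c : ℂ) (r : ℝ) (h : ℂ → ℂ), τ ∈ ball c r ∧
    DifferentiableOn ℂ h (ball c r) ∧ ∀ w ∈ ball c r ∩ ball 0 1, h w = g w

/-- Property (NB): the restriction of `f` to every affine disc `Φ(w) = a + w b`, `b ≠ 0`, with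
`Φ(T) ⊆ S` has the unit circle as natural boundary. -/
def PropertyNB {n : ℕ} (f : EuclideanSpace ℂ (Fin n) → ℂ) : Prop :=
  ∀ a b : EuclideanSpace ℂ (Fin n), b ≠ 0 →
    (∀ τ : ℂ, ‖τ‖ = 1 → a + τ • b ∈ sphere (0 : EuclideanSpace ℂ (Fin n)) 1) →
      HasNaturalBoundary fun w => f (a + w • b)

/-- For every `n > 1` there is `f ∈ A^∞(B)` with property (NB). -/
theorem result : ∀ n : ℕ, 1 < n →
    ∃ f : EuclideanSpace ℂ (Fin n) → ℂ, InAInf f ∧ PropertyNB f := by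
  intro n hn
  have : Nontrivial (EuclideanSpace ℂ (Fin n)) := by
    have : NeZero n := ⟨by omega⟩
    infer_instance
  obtain ⟨f, h1, h2, h3⟩ := Pool.Agent.Y260.exists_nb (E := EuclideanSpace ℂ (Fin n))
  refine ⟨f, ⟨h1, h2⟩, ?_⟩
  intro a b hb hab τ hτ
  rintro ⟨c, r, h, hτc, hh, heq⟩
  exact h3 a b hb (fun τ hτ => by simpa using hab τ hτ) τ hτ
    ⟨c, r, h, hτc, hh, fun w hw hw1 => heq w ⟨hw, by simpa using hw1⟩⟩

end Pool.Agent.Results.MP_ca9574_an.NaturalBoundary
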